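import Mathlib
import Pool.Agent.U578.SAvB

/-!
# Permutations that strongly avoid 321 and 1342

For every `n ≥ 1`, the number of permutations `π` of an `n`-element chain such that both `π` and
`π²` avoid the patterns 321 and 1342 is `2 F_{n+2} - n - 2`.
-/

set_option autoImplicit false

namespace Pool.Agent.Results.MP_aa036a_co.StrongAvoidance

/-- `Occurs τ π`: the permutation `π` of `Fin n` contains an occurrence of the pattern whose word
is `τ` (positions `f 0 < f 1 < ⋯` such that the values of `π` there are ordered as in `τ`). -/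
def Occurs {m n : ℕ} (τ : Fin m → ℕ) (π : Equiv.Perm (Fin n)) : Prop :=
  ∃ f : Fin m → Fin n, StrictMono f ∧ ∀ j k : Fin m, π (f j) < π (f k) ↔ τ j < τ k

/-- `AvoidsBoth π`: `π` avoids the patterns 321 and 1342. -/
def AvoidsBoth {n : ℕ} (π : Equiv.Perm (Fin n)) : Prop :=
  ¬ Occurs ![3, 2, 1] π ∧ ¬ Occurs ![1, 3, 4, 2] π

/-- `SAv n`: the permutations `π` of `Fin n` such that `π` and `π²` both avoid 321 and 1342. -/
def SAv (n : ℕ) : Set (Equiv.Perm (Fin n)) :=
  {π | AvoidsBoth π ∧ AvoidsBoth (π ^ 2)}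

open Pool.Agent.U578.SAv

/-- extension of a permutation of `Fin n` to `ℕ` -/
noncomputable def ext {n : ℕ} (π : Equiv.Perm (Fin n)) : Equiv.Perm ℕ :=
  π.extendDomain Fin.equivSubtype

theorem ext_lt {n : ℕ} (π : Equiv.Perm (Fin n)) (i : Fin n) : ext π i = π i := by
  have h := Equiv.Perm.extendDomain_apply_image π (Fin.equivSubtype (n := n)) i
  exact h

theorem ext_ge {n : ℕ} (π : Equiv.Perm (Fin n)) (i : ℕ) (hi : n ≤ i) : ext π i = i :=
  Equiv.Perm.extendDomain_apply_not_subtype π (Fin.equivSubtype (n := n)) (by omega)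

theorem ext_sq {n : ℕ} (π : Equiv.Perm (Fin n)) (i : ℕ) : ext (π ^ 2) i = ext π (ext π i) := by
  rcases Nat.lt_or_ge i n with h | h
  · have h1 := ext_lt (π ^ 2) ⟨i, h⟩
    have h2 := ext_lt π ⟨i, h⟩
    have h3 := ext_lt π (π ⟨i, h⟩)
    have h4 : (π ^ 2) ⟨i, h⟩ = π (π ⟨i, h⟩) := by rw [sq]; rfl
    simp only at h1 h2
    rw [h1, h2, h3, h4]
  · rw [ext_ge _ i h, ext_ge π i h, ext_ge π i h]

theorem ext_injective {n : ℕ} : Function.Injective (ext (n := n)) := by
  intro π σ h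
  ext i
  rw [← ext_lt π i, ← ext_lt σ i, h]

theorem A3_iff {n : ℕ} (π : Equiv.Perm (Fin n)) : A3 (ext π) ↔ ¬ Occurs ![3, 2, 1] π := by
  constructor
  · rintro h ⟨f, hf, hfo⟩
    have h1 := (hfo 1 0).2 (by decide)
    have h2 := (hfo 2 1).2 (by decide)
    refine h (f 0) (f 1) (f 2) (hf (by decide)) (hf (by decide)) ?_
    rw [ext_lt, ext_lt, ext_lt]
    exact ⟨h2, h1⟩
  · intro h i j k hij hjk hh
    apply h
    have hfix : ∀ i, n ≤ i → ext π i = i := fun i hi => ext_ge π i hi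
    have hk : k < n := by
      by_contra hc
      have h1 := hfix k (by omega)
      rcases Nat.lt_or_ge j n with hj | hj
      · have := fix_lt hfix hj
        omega
      · have := hfix j hj
        omega
    have hj : j < n := by omega
    have hi : i < n := by omega
    have e1 := ext_lt π ⟨i, hi⟩
    have e2 := ext_lt π ⟨j, hj⟩
    have e3 := ext_lt π ⟨k, hk⟩
    simp only at e1 e2 e3
    rw [e1, e2, e3] at hh
    refine ⟨![⟨i, hi⟩, ⟨j, hj⟩, ⟨k, hk⟩], ?_, ?_⟩
    · intro a b hab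
      fin_cases a <;> fin_cases b <;> simp_all <;> omega
    · have a1 : π ⟨k, hk⟩ < π ⟨j, hj⟩ := hh.1
      have a2 : π ⟨j, hj⟩ < π ⟨i, hi⟩ := hh.2
      have a3 := a1.trans a2
      intro a b
      fin_cases a <;> fin_cases b <;>
        simp [a1, a2, a3, not_lt.2 a1.le, not_lt.2 a2.le, not_lt.2 a3.le]

theorem A4_iff {n : ℕ} (π : Equiv.Perm (Fin n)) : A4 (ext π) ↔ ¬ Occurs ![1, 3, 4, 2] π := by
  constructor
  · rintro h ⟨f, hf, hfo⟩
    have h1 := (hfo 0 3).2 (by decide)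
    have h2 := (hfo 3 1).2 (by decide)
    have h3 := (hfo 1 2).2 (by decide)
    refine h (f 0) (f 1) (f 2) (f 3) (hf (by decide)) (hf (by decide)) (hf (by decide)) ?_
    rw [ext_lt, ext_lt, ext_lt, ext_lt]
    exact ⟨h1, h2, h3⟩
  · intro h i j k l hij hjk hkl hh
    apply h
    have hfix : ∀ i, n ≤ i → ext π i = i := fun i hi => ext_ge π i hi
    have hl : l < n := by
      by_contra hc
      have h1 := hfix l (by omega)
      rcases Nat.lt_or_ge j n with hj | hj
      · have := fix_lt hfix hj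
        omega
      · have := hfix j hj
        omega
    have hk : k < n := by omega
    have hj : j < n := by omega
    have hi : i < n := by omega
    have e1 := ext_lt π ⟨i, hi⟩
    have e2 := ext_lt π ⟨j, hj⟩
    have e3 := ext_lt π ⟨k, hk⟩
    have e4 := ext_lt π ⟨l, hl⟩
    simp only at e1 e2 e3 e4
    rw [e1, e2, e3, e4] at hh
    refine ⟨![⟨i, hi⟩, ⟨j, hj⟩, ⟨k, hk⟩, ⟨l, hl⟩], ?_, ?_⟩
    · intro a b hab
      fin_cases a <;> fin_cases b <;> simp_all <;> omega
    · have a1 : π ⟨i, hi⟩ < π ⟨l, hl⟩ := hh.1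
      have a2 : π ⟨l, hl⟩ < π ⟨j, hj⟩ := hh.2.1
      have a3 : π ⟨j, hj⟩ < π ⟨k, hk⟩ := hh.2.2
      have a4 := a1.trans a2
      have a5 := a2.trans a3
      have a6 := a4.trans a3
      intro a b
      fin_cases a <;> fin_cases b <;>
        simp [a1, a2, a3, a4, a5, a6,
          not_lt.2 a1.le, not_lt.2 a2.le, not_lt.2 a3.le, not_lt.2 a4.le, not_lt.2 a5.le,
          not_lt.2 a6.le]

theorem mem_iff {n : ℕ} (π : Equiv.Perm (Fin n)) : ext π ∈ W n ↔ π ∈ SAv n := by
  have h2 : ((ext (π ^ 2) : Equiv.Perm ℕ) : ℕ → ℕ) = fun i => ext π (ext π i) :=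
    funext (ext_sq π)
  constructor
  · rintro ⟨-, ⟨h3, h4⟩, g3, g4⟩
    rw [← h2] at g3 g4
    exact ⟨⟨(A3_iff π).1 h3, (A4_iff π).1 h4⟩, (A3_iff _).1 g3, (A4_iff _).1 g4⟩
  · rintro ⟨⟨h3, h4⟩, g3, g4⟩
    refine ⟨fun i hi => ext_ge π i hi, ⟨(A3_iff π).2 h3, (A4_iff π).2 h4⟩, ?_⟩
    rw [← h2]
    exact ⟨(A3_iff _).2 g3, (A4_iff _).2 g4⟩

theorem image_eq (n : ℕ) : ext '' SAv n = W n := by
  ext σ
  constructor
  · rintro ⟨π, hπ, rfl⟩
    exact (mem_iff π).2 hπ
  · intro hσ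
    have hfix := hσ.1
    have hfix' : ∀ i, n ≤ i → σ.symm i = i := by
      intro i hi
      rw [Equiv.symm_apply_eq]
      exact (hfix i hi).symm
    let π : Equiv.Perm (Fin n) :=
      { toFun := fun i => ⟨σ i, fix_lt hfix i.2⟩
        invFun := fun i => ⟨σ.symm i, fix_lt hfix' i.2⟩
        left_inv := fun i => by simp
        right_inv := fun i => by simp }
    have hπ : ext π = σ := by
      ext i
      rcases Nat.lt_or_ge i n with h | h
      · exact ext_lt π ⟨i, h⟩
      · rw [ext_ge π i h, hfix i h]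
    refine ⟨π, ?_, hπ⟩
    rw [← mem_iff, hπ]
    exact hσ

/-- For every `n ≥ 1`, exactly `2 F_{n+2} - n - 2` permutations of `n` elements strongly avoid
321 and 1342. -/
theorem result (n : ℕ) (hn : 1 ≤ n) :
    ((SAv n).ncard : ℤ) = 2 * (Nat.fib (n + 2) : ℤ) - n - 2 := by
  have h := count n hn
  rw [← image_eq, Set.ncard_image_of_injective _ ext_injective] at h
  omega

end Pool.Agent.Results.MP_aa036a_co.StrongAvoidance
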